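import Pool.Agent.W759.TR.Defs

namespace Pool.Agent.W373.TR

open MeasureTheory ProbabilityTheory Set Filter
open scoped ENNReal Topology
open Pool.Agent.W759.TR
open Pool.Agent.W759.FD (house rs)

/-- Put the labels back. -/
def putBack {V : Type} (C : Set V) (U : V → Lab) (y : C × (Key × ℕ) → Bool) : C → S1 :=
  fun v => (U v, fun q => y (v, q))

theorem measurable_putBack {V : Type} (C : Set V) (U : V → Lab) :
    Measurable (putBack C U) := by
  refine measurable_pi_lambda _ fun v => ?_
  refine Measurable.prodMk measurable_const ?_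
  exact measurable_pi_lambda _ fun q => measurable_pi_apply _

/-- Cutting the links outside `C` does not change the law on `C`. -/
theorem t4 : T4 := by
  intro h0 h2 h4a h4b V _ G C
  have hP : ∀ k : Key × (V × ℕ), IsProbabilityMeasure (house (k.1.1.1 + 1)) :=
    fun k => h0.1 _ (Nat.succ_pos _)
  have hPH : IsProbabilityMeasure (PH V) := by unfold PH; infer_instance
  have hPU : IsProbabilityMeasure (PU V) := by unfold PU; infer_instance
  have hrs : Measurable (rs (T := S1) C) :=
    measurable_pi_lambda _ fun j => measurable_pi_apply _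
  have hm1 : Measurable (fun ω : Env V => rs C (XC G univ ω)) := hrs.comp (h2 V G univ)
  have hm2 : Measurable (fun ω : Env V => rs C (XC G C ω)) := hrs.comp (h2 V G C)
  have key : ∀ U : V → Lab, (PH V).map (fun H => rs C (XC G univ (U, H))) =
      (PH V).map (fun H => rs C (XC G C (U, H))) := by
    intro U
    have h := h4a h0 (Key × (V × ℕ)) (C × (Key × ℕ)) (fun k => k.1.1.1)
      (fun e => (e.2.1, first G univ U e.2.1.2 e.2.2 e.1))
      (fun e => (e.2.1, first G C U e.2.1.2 e.2.2 e.1)) (fun e => e.2.2)
      (fun e => rfl)
      (by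
        rintro ⟨v, k, j⟩ ⟨v', k', j'⟩ he
        simp only [Prod.mk.injEq] at he
        obtain ⟨hk, hf⟩ := he
        subst hk
        have := (h4b V G C U k.2 v v' j j' v.2 v'.2).1 hf
        simp only [this])
      (by
        rintro ⟨v, k, j⟩ ⟨v', k', j'⟩ he hne
        simp only [Prod.mk.injEq] at he
        obtain ⟨hk, hf⟩ := he
        subst hk
        refine (h4b V G C U k.2 v v' j j' v.2 v'.2).2 hf ?_
        intro hc
        exact hne (by simp only [hc]))
    have hme : ∀ F : C × (Key × ℕ) → Key × (V × ℕ),
        Measurable (fun (H : Key × (V × ℕ) → ℕ → Bool) (e : C × (Key × ℕ)) => H (F e) e.2.2) := by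
      intro F
      refine measurable_pi_lambda _ fun e => ?_
      exact (measurable_pi_apply _).comp (measurable_pi_apply _)
    have h' := congrArg (fun μ : Measure (C × (Key × ℕ) → Bool) => μ.map (putBack C U)) h
    rw [Measure.map_map (measurable_putBack C U) (hme _),
      Measure.map_map (measurable_putBack C U) (hme _)] at h'
    exact h'
  have hsec : ∀ (C' : Set V) (U : V → Lab), Measurable (fun H => rs C (XC G C' (U, H))) := by
    intro C' U
    exact (hrs.comp (h2 V G C')).comp measurable_prodMk_left
  ext B hB
  rw [Measure.map_apply hm1 hB, Measure.map_apply hm2 hB, PE, Measure.prod_apply (hm1 hB),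
    Measure.prod_apply (hm2 hB)]
  refine lintegral_congr fun U => ?_
  have h := congrArg (fun μ : Measure (C → S1) => μ B) (key U)
  rw [Measure.map_apply (hsec _ _) hB, Measure.map_apply (hsec _ _) hB] at h
  exact h

end Pool.Agent.W373.TR
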